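import Mathlib

namespace Pool.Agent.Results.MP_44eb1e_pr.Disk

open MeasureTheory Matrix Metric

/-- `(q, r)` solves the Master Equations with parameter `s` -/
def Master {n : ℕ} (V : Matrix (Fin n) (Fin n) ℝ) (s : ℝ) (q r : Fin n → ℝ) : Prop :=
  (∀ i, 0 ≤ q i) ∧ (∀ i, 0 ≤ r i) ∧
  (∀ i, q i = (Vᵀ *ᵥ q) i / (s ^ 2 + (V *ᵥ r) i * (Vᵀ *ᵥ q) i)) ∧
  (∀ i, r i = (V *ᵥ r) i / (s ^ 2 + (V *ᵥ r) i * (Vᵀ *ᵥ q) i)) ∧ ∑ i, q i = ∑ i, r i

theorem logsum {n : ℕ} (y w : Fin n → ℝ) (c : ℝ) (hy : ∀ j, 0 ≤ y j) (hw : ∀ j, 0 < w j)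
    (hc : 0 < c) (h : ∑ j, y j * w j = c * ∑ j, y j) :
    0 ≤ ∑ j, (y j * w j - y j) * (Real.log (w j) - Real.log c) := by
  have e : ∑ j, ((y j * w j - c * y j) + (y j - y j * w j / c)) = 0 := by
    simp only [Finset.sum_add_distrib, Finset.sum_sub_distrib, ← Finset.mul_sum, ← Finset.sum_div, h]
    field_simp
    ring
  refine e.ge.trans (Finset.sum_le_sum fun j _ => ?_)
  have a := Real.log_le_sub_one_of_pos (div_pos (hw j) hc)
  have b := Real.log_le_sub_one_of_pos (div_pos hc (hw j))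
  rw [Real.log_div (hw j).ne' hc.ne'] at a
  rw [Real.log_div hc.ne' (hw j).ne'] at b
  have a' := mul_le_mul_of_nonneg_left a (hy j)
  have b' := mul_le_mul_of_nonneg_left b (mul_nonneg (hy j) (hw j).le)
  have : y j * w j * (c / w j) = c * y j := by have := (hw j).ne'; field_simp
  rw [mul_div_assoc]
  nlinarith

theorem mv_nonneg {n : ℕ} (V : Matrix (Fin n) (Fin n) ℝ) (hV : ∀ i j, 0 ≤ V i j) (q : Fin n → ℝ)
    (hq : ∀ i, 0 ≤ q i) (i) : 0 ≤ (V *ᵥ q) i :=
  Finset.sum_nonneg (s := Finset.univ) (f := fun j => V i j * q j)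
    fun j _ => mul_nonneg (hV i j) (hq j)

theorem pos_of {n : ℕ} (V : Matrix (Fin n) (Fin n) ℝ) (hV : ∀ i j, 0 ≤ V i j)
    (hirr : ∀ i j, Relation.ReflTransGen (fun i j => 0 < V i j) i j) (q D : Fin n → ℝ)
    (hq : ∀ i, 0 ≤ q i) (hD : ∀ i, 0 < D i) (h : ∀ i, q i = (V *ᵥ q) i / D i)
    (h0 : 0 < ∑ i, q i) (i) : 0 < q i := by
  obtain ⟨j, -, hj⟩ := Finset.exists_lt_of_sum_lt (s := Finset.univ) (f := fun _ => (0 : ℝ))
    (g := q) (by simpa using h0)
  induction hirr i j using Relation.ReflTransGen.head_induction_on with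
  | refl => exact hj
  | @head a b hab _ ih =>
    rw [h a]
    refine div_pos (lt_of_lt_of_le (mul_pos hab ih) ?_) (hD a)
    exact Finset.single_le_sum (f := fun k => V a k * q k)
      (fun k _ => mul_nonneg (hV a k) (hq k)) (Finset.mem_univ b)

theorem facts {n : ℕ} (V : Matrix (Fin n) (Fin n) ℝ) (hV : ∀ i j, 0 ≤ V i j)
    (hirr : ∀ i j, Relation.ReflTransGen (fun i j => 0 < V i j) i j) (s : ℝ) (hs : 0 < s)
    (q r : Fin n → ℝ) (h : Master V s q r) (h0 : (q, r) ≠ 0) (i) :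
    0 < q i ∧ 0 < r i ∧ 0 < q i * (V *ᵥ r) i ∧ q i * (V *ᵥ r) i < 1 ∧
      r i * (Vᵀ *ᵥ q) i = q i * (V *ᵥ r) i ∧
      r i * s ^ 2 = (1 - q i * (V *ᵥ r) i) * (V *ᵥ r) i := by
  obtain ⟨h1, h2, h3, h4, h5⟩ := h
  have hT : ∀ i j, 0 ≤ Vᵀ i j := fun i j => hV j i
  have hD : ∀ i, 0 < s ^ 2 + (V *ᵥ r) i * (Vᵀ *ᵥ q) i := fun i =>
    add_pos_of_pos_of_nonneg (by positivity) (mul_nonneg (mv_nonneg V hV r h2 i)
      (mv_nonneg _ hT q h1 i))
  have hsum : 0 < ∑ i, r i := by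
    refine (Finset.sum_nonneg fun i _ => h2 i).lt_of_ne fun e => h0 ?_
    have a := (Finset.sum_eq_zero_iff_of_nonneg fun i _ => h2 i).1 e.symm
    have b := (Finset.sum_eq_zero_iff_of_nonneg fun i _ => h1 i).1 (h5.trans e.symm)
    ext i
    exacts [b i (Finset.mem_univ _), a i (Finset.mem_univ _)]
  have hr := pos_of V hV hirr r _ h2 hD h4 hsum i
  have hq := pos_of Vᵀ hT (fun i j => (hirr j i).swap) q _ h1 hD h3 (h5 ▸ hsum) i
  have a := (eq_div_iff (hD i).ne').1 (h3 i)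
  have b := (eq_div_iff (hD i).ne').1 (h4 i)
  have d := hD i
  generalize (V *ᵥ r) i = x at *
  generalize (Vᵀ *ᵥ q) i = y at *
  have hx : 0 < x := b ▸ mul_pos hr d
  have e : r i * y = q i * x := by
    apply mul_right_cancel₀ d.ne'
    linear_combination y * b - x * a
  refine ⟨hq, hr, mul_pos hq hx, ?_, e, by linear_combination b - x * e⟩
  have : 0 < (1 - q i * x) * x := by
    have : 0 < r i * s ^ 2 := by positivity
    linarith [show r i * s ^ 2 = (1 - q i * x) * x by linear_combination b - x * e]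
  linarith [(mul_pos_iff_of_pos_right hx).1 this]

theorem strict {n : ℕ} (hn : 1 ≤ n) (V : Matrix (Fin n) (Fin n) ℝ) (hV : ∀ i j, 0 ≤ V i j)
    (hirr : ∀ i j, Relation.ReflTransGen (fun i j => 0 < V i j) i j) (s t : ℝ) (hs : 0 < s)
    (hst : s < t) (q r q' r' : Fin n → ℝ) (h : Master V s q r) (h0 : (q, r) ≠ 0)
    (h' : Master V t q' r') (h0' : (q', r') ≠ 0) : q' ⬝ᵥ V *ᵥ r' < q ⬝ᵥ V *ᵥ r := by
  have ht := hs.trans hst
  have f := facts V hV hirr s hs q r h h0
  have f' := facts V hV hirr t ht q' r' h' h0'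
  obtain ⟨p, hp⟩ : ∃ p : Fin n → ℝ, ∀ i, q i * (V *ᵥ r) i = p i := ⟨_, fun _ => rfl⟩
  obtain ⟨p', hp'⟩ : ∃ p : Fin n → ℝ, ∀ i, q' i * (V *ᵥ r') i = p i := ⟨_, fun _ => rfl⟩
  simp only [dotProduct, hp, hp'] at f f' ⊢
  by_contra! H
  have row : ∀ i, ∑ j, q i * V i j * r j = p i := fun i => by
    rw [← hp, mulVec, dotProduct, Finset.mul_sum]; simp only [mul_assoc]
  have row' : ∀ i, ∑ j, q' i * V i j * r' j = p' i := fun i => by
    rw [← hp', mulVec, dotProduct, Finset.mul_sum]; simp only [mul_assoc]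
  have col : ∀ j, ∑ i, q i * V i j * r j = p j := fun j => by
    rw [← (f j).2.2.2.2.1, mulVec, dotProduct, Finset.mul_sum]
    exact Finset.sum_congr rfl fun i _ => by rw [transpose_apply]; ring
  have col' : ∀ j, ∑ i, q' i * V i j * r' j = p' j := fun j => by
    rw [← (f' j).2.2.2.2.1, mulVec, dotProduct, Finset.mul_sum]
    exact Finset.sum_congr rfl fun i _ => by rw [transpose_apply]; ring
  have G : ∀ i, 0 ≤ ∑ j, (q i * V i j * r j - q' i * V i j * r' j) *
      (Real.log (q i / q' i) + Real.log (r j / r' j) - Real.log (p i / p' i)) := fun i => by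
    have e : ∀ j, q' i * V i j * r' j * (q i / q' i * (r j / r' j)) = q i * V i j * r j := fun j => by
      have := (f' i).1.ne'
      have := (f' j).2.1.ne'
      field_simp
    have := logsum (fun j => q' i * V i j * r' j) (fun j => q i / q' i * (r j / r' j)) (p i / p' i)
      (fun j => mul_nonneg (mul_nonneg (f' i).1.le (hV i j)) (f' j).2.1.le)
      (fun j => mul_pos (div_pos (f i).1 (f' i).1) (div_pos (f j).2.1 (f' j).2.1))
      (div_pos (f i).2.2.1 (f' i).2.2.1)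
      (by simp only [e, row, row']; rw [div_mul_cancel₀ _ (f' i).2.2.1.ne'])
    refine this.trans_eq (Finset.sum_congr rfl fun j _ => ?_)
    rw [e, Real.log_mul (div_pos (f i).1 (f' i).1).ne' (div_pos (f j).2.1 (f' j).2.1).ne']
  have L : ∀ i, Real.log (q i / q' i) + Real.log (r i / r' i) - Real.log (p i / p' i) =
      Real.log (1 - p i) - Real.log (1 - p' i) + Real.log (t ^ 2 / s ^ 2) := fun i => by
    obtain ⟨a1, a2, a3, a4, -, a5⟩ := f i
    obtain ⟨b1, b2, b3, b4, -, b5⟩ := f' i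
    have a4 := sub_pos.2 a4
    have b4 := sub_pos.2 b4
    have a : q i * r i * s ^ 2 = (1 - p i) * p i := by linear_combination q i * a5 + (1 - p i) * hp i
    have b : q' i * r' i * t ^ 2 = (1 - p' i) * p' i := by
      linear_combination q' i * b5 + (1 - p' i) * hp' i
    have a := congrArg Real.log a
    have b := congrArg Real.log b
    rw [Real.log_mul (by positivity) (by positivity), Real.log_mul a1.ne' a2.ne',
      Real.log_mul a4.ne' a3.ne'] at a
    rw [Real.log_mul (by positivity) (by positivity), Real.log_mul b1.ne' b2.ne',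
      Real.log_mul b4.ne' b3.ne'] at b
    rw [Real.log_div a1.ne' b1.ne', Real.log_div a2.ne' b2.ne', Real.log_div a3.ne' b3.ne',
      Real.log_div (by positivity) (by positivity)]
    linarith
  have S : ∑ i, ∑ j, (q i * V i j * r j - q' i * V i j * r' j) *
      (Real.log (q i / q' i) + Real.log (r j / r' j) - Real.log (p i / p' i)) =
      ∑ i, (p i - p' i) * (Real.log (1 - p i) - Real.log (1 - p' i)) +
        (∑ i, p i - ∑ i, p' i) * Real.log (t ^ 2 / s ^ 2) := by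
    rw [← Finset.sum_sub_distrib, Finset.sum_mul, ← Finset.sum_add_distrib]
    simp only [← mul_add, ← L]
    simp only [mul_sub, mul_add, Finset.sum_add_distrib, Finset.sum_sub_distrib]
    rw [Finset.sum_comm (f := fun i j => (q i * V i j * r j - q' i * V i j * r' j) *
      Real.log (r j / r' j))]
    simp only [← Finset.sum_mul, Finset.sum_sub_distrib, row, row', col, col']
  have T : ∀ i, p i ≠ p' i → (p i - p' i) * (Real.log (1 - p i) - Real.log (1 - p' i)) < 0 :=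
    fun i hi => by
    have a := sub_pos.2 (f i).2.2.2.1
    have b := sub_pos.2 (f' i).2.2.2.1
    rcases hi.lt_or_gt with c | c
    · exact mul_neg_of_neg_of_pos (by linarith) (sub_pos.2 (Real.log_lt_log b (by linarith)))
    · exact mul_neg_of_pos_of_neg (by linarith) (sub_neg.2 (Real.log_lt_log a (by linarith)))
  have hl : 0 ≤ Real.log (t ^ 2 / s ^ 2) :=
    Real.log_nonneg ((one_le_div (by positivity)).2 (by gcongr))
  have pp : ∀ i, p i = p' i := fun i => by
    by_contra hi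
    have a := Finset.sum_nonneg fun i (_ : i ∈ Finset.univ) => G i
    have b := Finset.sum_neg' (s := Finset.univ)
      (f := fun i => (p i - p' i) * (Real.log (1 - p i) - Real.log (1 - p' i))) (fun i _ => by
      rcases eq_or_ne (p i) (p' i) with e | e
      · simp [e]
      · exact (T i e).le) ⟨i, Finset.mem_univ _, T i hi⟩
    nlinarith [mul_nonneg (sub_nonneg.2 H) hl]
  have : Nonempty (Fin n) := ⟨⟨0, hn⟩⟩
  obtain ⟨i, hi⟩ := Finite.exists_max fun i => r' i / r i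
  have m : (V *ᵥ r') i ≤ r' i / r i * (V *ᵥ r) i := by
    simp only [mulVec, dotProduct, Finset.mul_sum]
    refine Finset.sum_le_sum fun j _ => ?_
    have := (div_le_iff₀ (f j).2.1).1 (hi j)
    nlinarith [hV i j]
  obtain ⟨a1, a2, a3, a4, -, a5⟩ := f i
  obtain ⟨b1, b2, b3, b4, -, b5⟩ := f' i
  rw [← pp] at b5
  rw [div_mul_eq_mul_div, le_div_iff₀ a2] at m
  have m := mul_le_mul_of_nonneg_left m (sub_pos.2 a4).le
  have : s ^ 2 < t ^ 2 := by gcongr
  nlinarith [mul_lt_mul_of_pos_left this (mul_pos a2 b2)]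

theorem result (n : ℕ) (hn : 1 ≤ n) (A : Matrix (Fin n) (Fin n) ℝ) (_hA : ∀ i j, 0 ≤ A i j)
    (hirr : ∀ i j, Relation.ReflTransGen (fun i j => 0 < A i j) i j)
    (V : Matrix (Fin n) (Fin n) ℝ) (hV : ∀ i j, V i j = A i j ^ 2 / n)
    (R : ℝ) (hR : R = √(spectralRadius ℂ (V.map Complex.ofReal)).toReal)
    (q r : ℝ → Fin n → ℝ) (hM : ∀ s > 0, Master V s (q s) (r s))
    (hne : ∀ s > 0, s < R → (q s, r s) ≠ 0) (hz : ∀ s > 0, R ≤ s → (q s, r s) = 0)
    (μ : Measure ℂ) [IsProbabilityMeasure μ]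
    (hrot : ∀ u : ℂ, ‖u‖ = 1 → μ.map (fun z => u * z) = μ)
    (hF : ∀ s > 0, μ.real {z | ‖z‖ ≤ s} = 1 - 1 / n * (q s ⬝ᵥ V *ᵥ r s)) :
    μ.support = {z | ‖z‖ ≤ R} ∧ IsConnected μ.support := by
  have hn' : (0 : ℝ) < n := by exact_mod_cast hn
  have R0 : 0 ≤ R := hR ▸ Real.sqrt_nonneg _
  have V0 : ∀ i j, 0 ≤ V i j := fun i j => by rw [hV]; positivity
  have Vi : ∀ i j, Relation.ReflTransGen (fun i j => 0 < V i j) i j := fun i j => by
    induction hirr i j with
    | refl => rfl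
    | tail _ h ih => exact ih.tail (by rw [hV]; positivity)
  have ms : ∀ s : ℝ, MeasurableSet {z : ℂ | ‖z‖ ≤ s} := fun s => by measurability
  have sub : μ.support ⊆ {z | ‖z‖ ≤ R} := fun z hz' => by
    by_contra h
    obtain ⟨s, h1, h2⟩ := exists_between (not_le.1 (show ¬‖z‖ ≤ R from h))
    have s0 := R0.trans_lt h1
    have e := hF s s0
    rw [show q s = 0 from congrArg Prod.fst (hz s s0 h1.le), zero_dotProduct] at e
    refine Measure.notMem_support_iff_exists.2 ⟨{z | ‖z‖ ≤ s}ᶜ,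
      (isClosed_le continuous_norm continuous_const).isOpen_compl.mem_nhds (not_le.2 h2), ?_⟩ hz'
    rw [← measureReal_eq_zero_iff, probReal_compl_eq_one_sub (ms s), e]
    ring
  have rot : ∀ u w : ℂ, ‖u‖ = 1 → w ∈ μ.support → u * w ∈ μ.support := fun u w hu hw => by
    rw [Measure.mem_support_iff_forall] at hw ⊢
    intro U hU
    rw [← hrot u hu]
    exact (hw _ ((continuous_const_mul u).continuousAt.preimage_mem_nhds hU)).trans_le
      (Measure.le_map_apply (by fun_prop) U)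
  have eq : μ.support = {z | ‖z‖ ≤ R} := by
    refine sub.antisymm fun z hz' => ?_
    replace hz' : ‖z‖ ≤ R := hz'
    rcases R0.eq_or_lt with e | R0
    · obtain ⟨w, hw⟩ := Measure.nonempty_support (IsProbabilityMeasure.ne_zero μ)
      have : ‖w‖ ≤ R := sub hw
      rw [← e, norm_le_zero_iff] at this hz'
      rwa [hz', ← this]
    rw [← Measure.isClosed_support.closure_eq, Metric.mem_closure_iff]
    intro ε hε
    obtain ⟨a, a1, a2⟩ := exists_between (show max 0 (‖z‖ - ε) < min R (‖z‖ + ε) by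
      simp only [max_lt_iff, lt_min_iff]
      exact ⟨⟨R0, by linarith⟩, by positivity, by linarith⟩)
    obtain ⟨b, b1, b2⟩ := exists_between a2
    rw [max_lt_iff] at a1
    rw [lt_min_iff] at b2
    have b0 := a1.1.trans b1
    have st := strict hn V V0 Vi a b a1.1 b1 _ _ _ _ (hM a a1.1) (hne a a1.1 (b1.trans b2.1))
      (hM b b0) (hne b b0 b2.1)
    have ps : 0 < μ.real ({z | ‖z‖ ≤ b} \ {z | ‖z‖ ≤ a}) := by
      rw [measureReal_sdiff (μ := μ) (s₁ := {z | ‖z‖ ≤ b}) (s₂ := {z | ‖z‖ ≤ a})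
        (fun z (h : ‖z‖ ≤ a) => h.trans b1.le) (ms a), hF a a1.1, hF b b0]
      linarith [mul_lt_mul_of_pos_left st (one_div_pos.2 hn')]
    obtain ⟨w, ⟨w1, w2⟩, hw⟩ := Measure.nonempty_inter_support_of_pos
      (pos_iff_ne_zero.2 fun h => ps.ne' (by rw [Measure.real, h]; rfl))
    replace w1 : ‖w‖ ≤ b := w1
    replace w2 : a < ‖w‖ := not_le.1 w2
    have w0 : w ≠ 0 := norm_pos_iff.1 (a1.1.trans w2)
    obtain ⟨u, hu, hz⟩ : ∃ u : ℂ, ‖u‖ = 1 ∧ z = u * ‖z‖ :=
      ⟨_, Complex.norm_exp_ofReal_mul_I z.arg, by rw [mul_comm, Complex.norm_mul_exp_arg_mul_I]⟩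
    refine ⟨_, rot (u * ‖w‖ / w) w (by simp [hu, w0]) hw, ?_⟩
    rw [div_mul_cancel₀ _ w0, dist_eq_norm]
    nth_rw 1 [hz]
    rw [← mul_sub, norm_mul, hu, one_mul, ← Complex.ofReal_sub, Complex.norm_real,
      Real.norm_eq_abs, abs_lt]
    constructor <;> linarith [a1.2, b2.2]
  refine ⟨eq, ?_⟩
  rw [eq, show {z : ℂ | ‖z‖ ≤ R} = closedBall 0 R by ext; simp]
  exact (convex_closedBall _ _).isConnected ⟨0, by simpa using R0⟩

end Pool.Agent.Results.MP_44eb1e_pr.Disk
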